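import Pool.Agent.H27.L1.H34.GHY.WSP
import Pool.Agent.H27.L1.H34.GZZ.ZER

/-!
Board gzz (MP_52e316_nt): the hybrid fourth moment without weight and without any condition at infinity.
-/

namespace Pool.Agent.H27.L1.H34.GZZ

open MeasureTheory Pool.Agent.H27.L1.H34.GM Pool.Agent.H27.L1.H34.GZ Pool.Agent.H27.L1.H34.GU Pool.Agent.H27.L1.H34.GA
  Pool.Agent.H27.L1.H23.GB Pool.Agent.H27.L1.H34.GHY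

/-- the approximate functional equation near the critical line, with local factors of polynomial growth
around the height `t` -/
def T_AFZ : Prop := ∀ (m A0 A1 : ℕ), 1 ≤ m → ∀ r0 B ε : ℝ, 1 ≤ r0 → 0 < B → 0 < ε → ε ≤ 1 →
  ∃ (K : ℕ) (C : ℝ), 0 < C ∧
  ∀ (N d M M1 : ℝ) (lam : ℕ → ℂ) (ψ ψ' : ℝ → ℂ), 1 ≤ N → 0 < d → d ≤ 1 / 2 → 0 ≤ M → 0 ≤ M1 →
  ContinuousOn ψ (Set.Ioi 0) → ContinuousOn ψ' (Set.Ioi 0) →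
  (∀ r : ℝ, 0 < r → ψ r ≠ 0 → r0⁻¹ ≤ r ∧ r ≤ r0) →
  (∀ r : ℝ, 0 < r → ‖ψ' r‖ ≤ M * min 1 ((r / d) ^ K)) →
  (∀ n : ℕ, 1 ≤ n → ‖(n : ℂ) ^ (((m : ℂ) - 1) / 2) * lam n‖ ≤ B * (n : ℝ) ^ m) →
  (∀ r : ℝ, 0 < r → thA m ψ lam r = ((r ^ (m ^ 2) * N ^ (-((m : ℝ) / 2)) : ℝ) : ℂ) *
    (starRingEnd ℂ) (thA m ψ' lam (N ^ (1 / (m : ℝ)) / r))) →
  ∀ t η : ℝ, |η| ≤ ε →
  (∀ u : ℝ, ‖MelA m ψ (1 / 2 + u * Complex.I)‖ ≤ M1 * (1 + |u - t|) ^ A1) →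
  (∀ u : ℝ, ‖MelA m ψ' (1 / 2 + u * Complex.I)‖ ≤ M1 * (1 + |u - t|) ^ A1) →
  ∀ X : ℕ, C * (N * d⁻¹ ^ m) ^ (1 / 2 : ℝ) * (N / d) ^ ε ≤ X →
    ‖LmA m ψ lam (((1 / 2 + η : ℝ) : ℂ) + t * Complex.I)‖ ≤ C * (N / d) ^ ((m + 3) * ε) *
      (M * (d / N) ^ A0 + M1 * ∫ τ : ℝ, ((1 + |τ|) ^ 4)⁻¹ *
        ‖SX lam X (1 / 2 + ((t + τ : ℝ) : ℂ) * Complex.I)‖)

/-- the zeta integral on a disc of radius `1 / δ`: bounded, and not small at one point -/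
def T_TAY : Prop := ∀ (m : ℕ) (χ : ℝ → ℝ), 1 ≤ m → Prof χ → ∀ C0 : ℝ, 1 ≤ C0 →
  ∃ c c2 C1 : ℝ, 0 < c ∧ 0 < c2 ∧ 0 < C1 ∧
  ∀ (f : Mat m → ℂ) (P : ℝ) (s0 : ℂ) (δ : ℝ),
  AEStronglyMeasurable (fun z : V m => f (mt z)) (hm m) →
  (∀ z : Mat m, z.det ≠ 0 → ‖f z‖ ≤ 1) → 0 ≤ P →
  (∀ w : Mat m, C0 * sz (w - 1) ≤ 1 → ‖f w - 1‖ ≤ C0 * P * sz (w - 1)) →
  0 < δ → δ * (1 + P + ‖s0‖) ≤ c →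
    (∀ s : ℂ, ‖s - s0‖ ≤ δ⁻¹ → ‖ZA (dD^[m] (bi m χ δ)) f s‖ ≤ C1) ∧
    ∃ s1 : ℂ, ‖s1 - s0‖ ≤ δ⁻¹ / 16 ∧ c2 ≤ ‖ZA (dD^[m] (bi m χ δ)) f s1‖

/-- removal of finitely many linear factors -/
def T_CIZ : Prop := ∀ (n0 : ℕ) (e : ℝ), 0 < e → ∃ C : ℝ, 0 < C ∧
  ∀ (n : ℕ) (L : ℂ → ℂ) (z : Fin n → ℂ) (s0 : ℂ) (U : ℝ), n ≤ n0 → Differentiable ℂ L →
  (∀ s, ‖s - s0‖ ≤ e → ‖L s‖ * ∏ i, min 1 ‖s - z i‖ ≤ U) → ‖L s0‖ ≤ C * U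

/-- Mellin transforms of continuous functions with compact support are entire -/
def T_MED : Prop := ∀ (m : ℕ) (r0 : ℝ) (ψ : ℝ → ℂ), 1 ≤ m → 1 ≤ r0 → ContinuousOn ψ (Set.Ioi 0) →
  (∀ r : ℝ, 0 < r → ψ r ≠ 0 → r0⁻¹ ≤ r ∧ r ≤ r0) → Differentiable ℂ (MelA m ψ)

/-- one value on the critical line against short sums, sharp at infinity: no weight, no condition at
infinity -/
def T_HYZ : Prop := ∀ m : ℕ, 1 ≤ m → ∀ ε : ℝ, 0 < ε → ∃ C : ℝ, 0 < C ∧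
  ∀ (N : ℕ) [NeZero N] (T : ℕ → Finset (ZM m)) (D : Set (V m)), SysZ m N T D →
  ∀ (F : Mat m → VN m N → ℂ) (lam : ℕ → ℂ) (P : ℝ), CusB m N T F lam →
  nU D F = 1 → Lip D F P → 1 ≤ P → ∀ L : ℂ → ℂ, IsL m 1 lam L → ∀ t : ℝ, |t| ≤ P →
  ∀ X : ℕ, C * ((N : ℝ) * P ^ m) ^ (1 / 2 : ℝ) * (N * P) ^ ε ≤ X →
    ‖L (1 / 2 + t * Complex.I)‖ ≤ C * (N * P) ^ ε *
      (1 + ∫ τ : ℝ, ((1 + |τ|) ^ 4)⁻¹ * ‖SX lam X (1 / 2 + ((t + τ : ℝ) : ℂ) * Complex.I)‖)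

/-- the hybrid fourth moment at well spaced points: no weight, no condition at infinity -/
def T_GBZ : Prop := ∀ m : ℕ, 1 ≤ m → ∀ ε : ℝ, 0 < ε → ∃ C : ℝ, 0 < C ∧
  ∀ (N : ℕ) [NeZero N] (T : ℕ → Finset (ZM m)) (D : Set (V m)), SysZ m N T D →
  ∀ P : ℝ, 1 ≤ P → ∀ (ι : Type) [Fintype ι] [DecidableEq ι] (F : ι → Mat m → VN m N → ℂ)
    (lam : ι → ℕ → ℂ),
    (∀ i, CusB m N T (F i) (lam i) ∧ Lip D (F i) P) → Orthn D F →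
    ∃ L : ι → ℂ → ℂ, (∀ i, IsL m 1 (lam i) (L i)) ∧
      ∀ J : ι → Finset ℝ, (∀ i, Wsp (J i)) → (∀ i, ∀ t ∈ J i, |t| ≤ P) →
      ∑ i, ∑ t ∈ J i, ‖L i (1 / 2 + t * Complex.I)‖ ^ 4 ≤
        C * ((N : ℝ) * P) ^ ε * (N : ℝ) ^ m * P ^ (m ^ 2)

end Pool.Agent.H27.L1.H34.GZZ
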