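import Pool.Agent.H27.L1.H34.GHY.GBW
import Pool.Agent.H27.L1.H34.GZZ.Targets

/-!
Row GBZ: the hybrid fourth moment at well spaced points, no weight, no condition at infinity.
-/

namespace Pool.Agent.H27.L1.H34.GZZ

open MeasureTheory Pool.Agent.H27.L1.H34.GM Pool.Agent.H27.L1.H34.GZ Pool.Agent.H27.L1.H34.GU Pool.Agent.H27.L1.H34.GA
open Pool.Agent.H27.L1.H68.GHY Pool.Agent.H27.L1.H23.GB Pool.Agent.H27.L1.H34.GHY

/-- smoothed values at well spaced points against integrals over intervals -/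
lemma wsp_int4 (k : ℝ → ℝ) (hkc : Continuous k) (hknn : ∀ τ, 0 ≤ k τ) (C : ℝ) (hC : 0 < C)
    (hk4 : ∀ τ, k τ ≤ C * ((1 + |τ|) ^ 4)⁻¹) : ∃ B : ℝ, 0 < B ∧
    ∀ (M : ℝ) (J : Finset ℝ) (f : ℝ → ℝ), 1 ≤ M → Wsp J → (∀ t ∈ J, |t| ≤ M) →
    Continuous f → (∀ u, 0 ≤ f u) → (∀ t, Integrable (fun τ => k τ * f (t + τ))) →
    ∑ t ∈ J, ENNReal.ofReal ((∫ τ : ℝ, k τ * f (t + τ)) ^ 4) ≤
      ∑' j : ℤ, ENNReal.ofReal (B * ((1 + |(j : ℝ)|) ^ 2)⁻¹) *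
        ∫⁻ u in Set.Icc (-M) M, ENNReal.ofReal (f (u + 2 * j * M) ^ 4) := by
  obtain ⟨B0, hB0, hsp⟩ := wsp_sum
  have hmk : Measurable (fun τ => ENNReal.ofReal (k τ)) :=
    ENNReal.measurable_ofReal.comp hkc.measurable
  -- the mass of the kernel
  obtain ⟨K1, hK1, hK1'⟩ : ∃ K1 : ℝ, 0 ≤ K1 ∧ ∫⁻ τ, ENNReal.ofReal (k τ) ≤ ENNReal.ofReal K1 := by
    have hint : Integrable (fun τ : ℝ => C * ((1 + |τ|) ^ 4)⁻¹) := by
      have h1 : Integrable (fun τ : ℝ => (1 + ‖τ‖) ^ (-(4 : ℝ))) :=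
        integrable_one_add_norm (by simp)
      refine (h1.const_mul C).congr (Filter.Eventually.of_forall (fun τ => ?_))
      show C * (1 + ‖τ‖) ^ (-(4 : ℝ)) = _
      rw [Real.rpow_neg (by positivity), Real.norm_eq_abs]
      congr 2
      exact_mod_cast Real.rpow_natCast (1 + |τ|) 4
    refine ⟨∫ τ : ℝ, C * ((1 + |τ|) ^ 4)⁻¹, integral_nonneg (fun τ => by positivity), ?_⟩
    rw [ofReal_integral_eq_lintegral_ofReal hint
      (Filter.Eventually.of_forall (fun τ => by positivity))]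
    exact lintegral_mono (fun τ => ENNReal.ofReal_le_ofReal (hk4 τ))
  refine ⟨K1 ^ 3 * (4 * C * B0) + 1, by positivity, ?_⟩
  intro M J f hM hJ hJM hf hf0 hfi
  set F : ℝ → ENNReal := fun u => ENNReal.ofReal (f u ^ 4) with hF
  have hFm : Measurable F := ENNReal.measurable_ofReal.comp (hf.pow 4).measurable
  -- one point
  have h1 : ∀ t ∈ J, ENNReal.ofReal ((∫ τ : ℝ, k τ * f (t + τ)) ^ 4) ≤
      ENNReal.ofReal K1 ^ 3 * ∫⁻ u, ENNReal.ofReal (k (u - t)) * F u := by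
    intro t _
    have e1 : ENNReal.ofReal ((∫ τ : ℝ, k τ * f (t + τ)) ^ 4) =
        (∫⁻ τ, ENNReal.ofReal (k τ) * ENNReal.ofReal (f (t + τ))) ^ 4 := by
      rw [ENNReal.ofReal_pow (integral_nonneg (fun τ => mul_nonneg (hknn τ) (hf0 _))),
        ofReal_integral_eq_lintegral_ofReal (hfi t)
          (Filter.Eventually.of_forall (fun τ => mul_nonneg (hknn τ) (hf0 _)))]
      congr 1
      exact lintegral_congr (fun τ => ENNReal.ofReal_mul (hknn τ))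
    rw [e1]
    have hm2 : Measurable (fun τ => ENNReal.ofReal (f (t + τ))) :=
      ENNReal.measurable_ofReal.comp (hf.comp (continuous_const.add continuous_id)).measurable
    refine (hold4 _ _ hmk hm2).trans ?_
    refine mul_le_mul' (pow_le_pow_left' hK1' 3) (le_of_eq ?_)
    have e2 := lintegral_sub_right_eq_self (μ := volume)
      (fun τ : ℝ => ENNReal.ofReal (k τ) * F (t + τ)) t
    have e3 : ∫⁻ τ, ENNReal.ofReal (k τ) * ENNReal.ofReal (f (t + τ)) ^ 4 =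
        ∫⁻ τ, ENNReal.ofReal (k τ) * F (t + τ) := by
      refine lintegral_congr (fun τ => ?_)
      rw [hF]
      simp only
      rw [ENNReal.ofReal_pow (hf0 _)]
    rw [e3, ← e2]
    refine lintegral_congr (fun u => ?_)
    rw [show t + (u - t) = u by ring]
  -- the kernel sum on an interval
  have h2 : ∀ (j : ℤ) (u : ℝ), u ∈ Set.Icc (2 * j * M - M) (2 * j * M + M) →
      ∑ t ∈ J, k (u - t) ≤ 4 * C * B0 * ((1 + |(j : ℝ)|) ^ 2)⁻¹ := by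
    intro j u hu
    have h3 : ∀ t ∈ J, (1 + |(j : ℝ)|) / 2 ≤ 1 + |u - t| := by
      intro t ht
      have ht1 := abs_le.1 (hJM t ht)
      have hj : |(j : ℝ)| ≤ |u - t| / (2 * M) + 1 := by
        have hM2 : 0 < 2 * M := by linarith
        have e4 : |2 * (j : ℝ) * M| ≤ |u - t| + 2 * M := by
          have : 2 * (j : ℝ) * M = (u - t) + (t - (u - 2 * j * M)) := by ring
          rw [this]
          refine (abs_add_le _ _).trans (add_le_add le_rfl ?_)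
          rw [abs_le]
          constructor <;> linarith [hu.1, hu.2, ht1.1, ht1.2]
        rw [abs_mul, abs_mul, abs_of_pos (by norm_num : (0 : ℝ) < 2), abs_of_pos (by linarith : 0 < M)] at e4
        rw [← sub_le_iff_le_add, le_div_iff₀ hM2]
        nlinarith
      have e5 : |u - t| / (2 * M) ≤ |u - t| / 2 := by
        apply div_le_div_of_nonneg_left (abs_nonneg _) (by norm_num)
        linarith
      have := abs_nonneg (u - t)
      linarith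
    have h4 : ∀ t ∈ J, k (u - t) ≤ 4 * C * ((1 + |(j : ℝ)|) ^ 2)⁻¹ * ((1 + |u - t|) ^ 2)⁻¹ := by
      intro t ht
      refine (hk4 _).trans ?_
      have e6 : 0 < 1 + |u - t| := by positivity
      have e7 : 0 < 1 + |(j : ℝ)| := by positivity
      have e8 : ((1 + |u - t|) ^ 2)⁻¹ ≤ 4 * ((1 + |(j : ℝ)|) ^ 2)⁻¹ := by
        have := pow_le_pow_left₀ (by positivity) (h3 t ht) 2
        rw [← div_eq_mul_inv, inv_eq_one_div, div_le_div_iff₀ (by positivity) (by positivity)]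
        rw [div_pow] at this
        linarith
      calc C * ((1 + |u - t|) ^ 4)⁻¹ = C * (((1 + |u - t|) ^ 2)⁻¹ * ((1 + |u - t|) ^ 2)⁻¹) := by
            rw [← mul_inv]
            ring_nf
        _ ≤ C * (4 * ((1 + |(j : ℝ)|) ^ 2)⁻¹ * ((1 + |u - t|) ^ 2)⁻¹) := by
            refine mul_le_mul_of_nonneg_left ?_ hC.le
            exact mul_le_mul_of_nonneg_right e8 (by positivity)
        _ = _ := by ring
    calc ∑ t ∈ J, k (u - t) ≤ ∑ t ∈ J, 4 * C * ((1 + |(j : ℝ)|) ^ 2)⁻¹ * ((1 + |u - t|) ^ 2)⁻¹ :=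
          Finset.sum_le_sum h4
      _ = 4 * C * ((1 + |(j : ℝ)|) ^ 2)⁻¹ * ∑ t ∈ J, ((1 + |u - t|) ^ 2)⁻¹ := by
          rw [Finset.mul_sum]
      _ ≤ 4 * C * ((1 + |(j : ℝ)|) ^ 2)⁻¹ * B0 :=
          mul_le_mul_of_nonneg_left (hsp J hJ u) (by positivity)
      _ = _ := by ring
  -- the cover
  have hcov : (Set.univ : Set ℝ) ⊆ ⋃ j : ℤ, Set.Icc (2 * (j : ℝ) * M - M) (2 * j * M + M) := by
    intro u _
    have hM2 : 0 < 2 * M := by linarith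
    refine Set.mem_iUnion.2 ⟨⌊(u + M) / (2 * M)⌋, ?_⟩
    have e1 := Int.floor_le ((u + M) / (2 * M))
    have e2 := Int.lt_floor_add_one ((u + M) / (2 * M))
    rw [le_div_iff₀ hM2] at e1
    rw [div_lt_iff₀ hM2] at e2
    constructor <;> nlinarith
  calc ∑ t ∈ J, ENNReal.ofReal ((∫ τ : ℝ, k τ * f (t + τ)) ^ 4) ≤
      ∑ t ∈ J, ENNReal.ofReal K1 ^ 3 * ∫⁻ u, ENNReal.ofReal (k (u - t)) * F u :=
        Finset.sum_le_sum h1
    _ = ENNReal.ofReal K1 ^ 3 * ∫⁻ u, ∑ t ∈ J, ENNReal.ofReal (k (u - t)) * F u := by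
        rw [lintegral_finsetSum, Finset.mul_sum]
        intro t _
        exact (hmk.comp (measurable_id.sub_const t)).mul hFm
    _ = ENNReal.ofReal K1 ^ 3 * ∫⁻ u in Set.univ, ∑ t ∈ J, ENNReal.ofReal (k (u - t)) * F u := by
        rw [Measure.restrict_univ]
    _ ≤ ENNReal.ofReal K1 ^ 3 * ∑' j : ℤ, ∫⁻ u in Set.Icc (2 * (j : ℝ) * M - M) (2 * j * M + M),
          ∑ t ∈ J, ENNReal.ofReal (k (u - t)) * F u := by
        refine mul_le_mul_right ?_ _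
        exact (lintegral_mono_set hcov).trans (lintegral_iUnion_le _ _)
    _ ≤ ENNReal.ofReal K1 ^ 3 * ∑' j : ℤ, ENNReal.ofReal (4 * C * B0 * ((1 + |(j : ℝ)|) ^ 2)⁻¹) *
          ∫⁻ u in Set.Icc (2 * (j : ℝ) * M - M) (2 * j * M + M), F u := by
        refine mul_le_mul_right (ENNReal.tsum_le_tsum (fun j => ?_)) _
        rw [← lintegral_const_mul _ hFm]
        refine setLIntegral_mono (hFm.const_mul _) (fun u hu => ?_)
        rw [← Finset.sum_mul, ← ENNReal.ofReal_sum_of_nonneg (fun t _ => hknn _)]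
        exact mul_le_mul_left (ENNReal.ofReal_le_ofReal (h2 j u hu)) _
    _ ≤ _ := by
        rw [← ENNReal.tsum_mul_left]
        refine ENNReal.tsum_le_tsum (fun j => ?_)
        have e9 : ∫⁻ u in Set.Icc (2 * (j : ℝ) * M - M) (2 * j * M + M), F u =
            ∫⁻ u in Set.Icc (-M) M, ENNReal.ofReal (f (u + 2 * j * M) ^ 4) := by
          have := (measurePreserving_add_right volume (2 * (j : ℝ) * M)).setLIntegral_comp_preimage
            (s := Set.Icc (2 * (j : ℝ) * M - M) (2 * j * M + M)) measurableSet_Icc hFm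
          rw [← this]
          congr 2
          rw [Set.preimage_add_const_Icc]
          congr 1 <;> ring
        rw [e9, ← mul_assoc]
        refine mul_le_mul_left ?_ _
        rw [← ENNReal.ofReal_pow hK1, ← ENNReal.ofReal_mul (by positivity)]
        refine ENNReal.ofReal_le_ofReal ?_
        have : 0 < ((1 + |(j : ℝ)|) ^ 2)⁻¹ := by positivity
        nlinarith

lemma krn_int4 {k : ℝ → ℝ} (hkc : Continuous k) (hknn : ∀ τ, 0 ≤ k τ) {C : ℝ}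
    (hk4 : ∀ τ, k τ ≤ C * ((1 + |τ|) ^ 4)⁻¹) (f : ℝ → ℝ) (hf : Continuous f) (B : ℝ)
    (hB : ∀ u, |f u| ≤ B) (t : ℝ) : Integrable (fun τ => k τ * f (t + τ)) := by
  have h1 : Integrable (fun τ : ℝ => (1 + ‖τ‖) ^ (-(4 : ℝ))) := integrable_one_add_norm (by simp)
  refine ((h1.const_mul C).mul_const B).mono'
    ((hkc.mul (hf.comp (continuous_const.add continuous_id))).aestronglyMeasurable)
    (Filter.Eventually.of_forall (fun τ => ?_))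
  have h2 : (1 + ‖τ‖) ^ (-(4 : ℝ)) = ((1 + |τ|) ^ 4)⁻¹ := by
    rw [Real.rpow_neg (by positivity), Real.norm_eq_abs]
    congr 1
    exact_mod_cast Real.rpow_natCast (1 + |τ|) 4
  rw [norm_mul, Real.norm_eq_abs, Real.norm_eq_abs, abs_of_nonneg (hknn τ), h2]
  exact mul_le_mul (hk4 τ) (hB _) (abs_nonneg _) ((hknn τ).trans (hk4 τ))

theorem pf_GBZ : T_ENA → T_HYZ → T_DYD → T_CRD → T_GBZ := by
  intro hENA hHYA hDYD hCRD m hm1 ε hε
  obtain ⟨e1, he1, he1ε⟩ : ∃ e1 : ℝ, 0 < e1 ∧ (2 * m + 8) * e1 = ε :=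
    ⟨ε / (2 * m + 8), by positivity, by field_simp⟩
  obtain ⟨C2, hC2, hH⟩ := hHYA m hm1 e1 he1
  obtain ⟨k, hkd⟩ : ∃ k : ℝ → ℝ, k = fun τ => ((1 + |τ|) ^ 4)⁻¹ := ⟨_, rfl⟩
  have hkc : Continuous k := by
    rw [hkd]
    refine Continuous.inv₀ (by fun_prop) (fun τ => ?_)
    positivity
  have hknn : ∀ τ, 0 ≤ k τ := fun τ => by rw [hkd]; positivity
  have hk1 : ∀ τ, k τ ≤ 1 * ((1 + |τ|) ^ 4)⁻¹ := fun τ => by rw [hkd, one_mul]
  obtain ⟨C2', hC2'⟩ : ∃ C2' : ℝ, C2' = max C2 1 := ⟨_, rfl⟩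
  have hC2'1 : 1 ≤ C2' := by rw [hC2']; exact le_max_right _ _
  have hC2'2 : C2 ≤ C2' := by rw [hC2']; exact le_max_left _ _
  obtain ⟨c0, C1, hc0, hC1, hD⟩ := hDYD m hm1 e1 (2 * C2') he1 (by linarith)
  obtain ⟨c3, C3, hc3, hC3, hR⟩ := hCRD m hm1 e1 he1
  obtain ⟨B, hB, hW⟩ := wsp_int4 k hkc hknn 1 one_pos hk1
  -- the scale
  obtain ⟨c', hc', hc'1, hc'0, hc'3⟩ : ∃ c' : ℝ, 0 < c' ∧ c' ≤ 1 / 2 ∧ c' ≤ c0 / 2 ∧ c' ≤ c3 / 2 :=
    ⟨min (1 / 2) (min (c0 / 2) (c3 / 2)), lt_min (by norm_num) (lt_min (by positivity)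
      (by positivity)), min_le_left _ _, (min_le_right _ _).trans (min_le_left _ _),
      (min_le_right _ _).trans (min_le_right _ _)⟩
  set S2 : ℝ := ∑' j : ℤ, ((1 + |(j : ℝ)|) ^ 2)⁻¹ with hS2
  have hS2nn : 0 ≤ S2 := tsum_nonneg (fun j => by positivity)
  -- the final constant
  set K : ℝ := 8 * C2 ^ 4 * ((c'⁻¹ ^ e1 * c'⁻¹ ^ (m ^ 2)) * (4 * C3) +
    (c'⁻¹ ^ ((2 * m + 4) * e1) * c'⁻¹ ^ (m ^ 2)) * (B * S2 * C1)) with hK
  have hKnn : 0 ≤ K := by positivity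
  refine ⟨K + 1, by positivity, ?_⟩
  intro N _ T D hSys P hP1 ι _ _ F lam hF hOr
  have hN2 := hSys.two_le
  have hN0 : (0 : ℝ) < N := by
    have : 0 < N := by omega
    exact_mod_cast this
  have hN1 : (1 : ℝ) ≤ N := by
    have : 1 ≤ N := by omega
    exact_mod_cast this
  have hP0 : 0 < P := by linarith
  have hn1 : ∀ i, nU D (F i) = 1 := fun i => mou_nU F hOr i
  have hnz : ∀ i, NZ (F i) := fun i => mou_nz hm1 hSys.dom (F i) (by rw [hn1 i]; exact one_ne_zero)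
  have hL0 : ∀ i, ∃ L : ℂ → ℂ, IsL m 1 (lam i) L ∧ ∀ ψ : ℝ → ℂ, Wc m ψ (lam i) →
      ∀ s : ℂ, LmA m ψ (lam i) s = L s * MelA m ψ s := fun i =>
    hENA m N T D hSys (F i) (lam i) (hF i).1 (hnz i)
  choose L hLL hLm using hL0
  refine ⟨L, hLL, ?_⟩
  intro J hJ hJP
  -- parameters
  obtain ⟨δ, hδ⟩ : ∃ δ : ℝ, δ = c' / P := ⟨_, rfl⟩
  have hδ0 : 0 < δ := by rw [hδ]; positivity
  have hδP : δ * P = c' := by rw [hδ]; field_simp
  have hδ1 : δ ≤ 1 / 2 := by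
    have : δ ≤ δ * P := le_mul_of_one_le_right hδ0.le hP1
    linarith
  have hδP2 : δ * (1 + P) ≤ 2 * c' := by
    have : δ ≤ δ * P := le_mul_of_one_le_right hδ0.le hP1
    linarith
  have hδi : δ⁻¹ = c'⁻¹ * P := by rw [hδ]; field_simp
  have hc'i : 1 ≤ c'⁻¹ := by
    rw [one_le_inv₀ hc']
    linarith
  have hPδ : P ≤ δ⁻¹ := by
    rw [hδi]
    exact le_mul_of_one_le_left hP0.le hc'i
  have hδi1 : 1 ≤ δ⁻¹ := hP1.trans hPδ
  have hNP : 1 ≤ (N : ℝ) * P := by nlinarith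
  -- the length
  obtain ⟨X0, hX0⟩ : ∃ X0 : ℝ, X0 = C2' * ((N : ℝ) * P ^ m) ^ (1 / 2 : ℝ) * (N * P) ^ e1 := ⟨_, rfl⟩
  have hX01 : 1 ≤ X0 := by
    rw [hX0]
    have e1' : 1 ≤ ((N : ℝ) * P ^ m) ^ (1 / 2 : ℝ) := by
      refine Real.one_le_rpow ?_ (by norm_num)
      have : 1 ≤ P ^ m := one_le_pow₀ hP1
      nlinarith
    have e2' : 1 ≤ ((N : ℝ) * P) ^ e1 := Real.one_le_rpow hNP he1.le
    calc (1 : ℝ) = 1 * 1 * 1 := by norm_num
      _ ≤ _ := by gcongr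
  obtain ⟨X, hX⟩ : ∃ X : ℕ, X = ⌈X0⌉₊ := ⟨_, rfl⟩
  have hXge : X0 ≤ X := by rw [hX]; exact Nat.le_ceil _
  have hXle : (X : ℝ) ≤ 2 * X0 := by
    rw [hX]
    have := Nat.ceil_lt_add_one (by linarith : 0 ≤ X0)
    linarith
  have hXle2 : (X : ℝ) ≤ 2 * C2' * ((N : ℝ) ^ ((1 : ℝ) / 2) * δ⁻¹ ^ ((m : ℝ) / 2)) *
      ((N : ℝ) * δ⁻¹) ^ e1 := by
    refine hXle.trans ?_
    rw [hX0, Real.mul_rpow hN0.le (by positivity), ← Real.rpow_natCast P m, ← Real.rpow_mul hP0.le]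
    have e3 : P ^ ((m : ℝ) * (1 / 2)) ≤ δ⁻¹ ^ ((m : ℝ) / 2) := by
      rw [show (m : ℝ) * (1 / 2) = (m : ℝ) / 2 by ring]
      exact Real.rpow_le_rpow hP0.le hPδ (by positivity)
    have e4 : ((N : ℝ) * P) ^ e1 ≤ ((N : ℝ) * δ⁻¹) ^ e1 :=
      Real.rpow_le_rpow (by positivity) (mul_le_mul_of_nonneg_left hPδ hN0.le) he1.le
    calc 2 * (C2' * ((N : ℝ) ^ (1 / 2 : ℝ) * P ^ ((m : ℝ) * (1 / 2))) * ((N : ℝ) * P) ^ e1) =
        2 * C2' * ((N : ℝ) ^ (1 / 2 : ℝ) * P ^ ((m : ℝ) * (1 / 2))) * ((N : ℝ) * P) ^ e1 := by ring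
      _ ≤ _ := by gcongr
  have hX1 : (1 : ℝ) ≤ X := hX01.trans hXge
  -- the family
  have hfam : ∀ i, CusB m N T (F i) (lam i) ∧ Lip D (F i) P ∧ 0 ≤ P := fun i =>
    ⟨(hF i).1, (hF i).2, hP0.le⟩
  have hcard := hR N T D hSys ι F lam (fun _ => P) hfam hOr δ hδ0 hδ1
    (fun _ => hδP2.trans (by linarith))
  have hdyd := hD N T D hSys ι F lam (fun _ => P) hfam hOr δ hδ0 hδ1
    (fun _ => hδP2.trans (by linarith)) X hX1 hXle2
  -- one value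
  set f : ι → ℝ → ℝ := fun i u => ‖SD (lam i) X u‖ with hf
  have hfc : ∀ i, Continuous (f i) := fun i => (sd_cont (lam i) X).norm
  have hf0 : ∀ i u, 0 ≤ f i u := fun i u => norm_nonneg _
  have hfi : ∀ i t, Integrable (fun τ => k τ * f i (t + τ)) := by
    intro i t
    obtain ⟨Bb, hBb⟩ := sd_bdd (lam i) X
    refine krn_int4 hkc hknn hk1 (f i) (hfc i) Bb (fun u => ?_) t
    rw [abs_of_nonneg (hf0 i u)]
    exact hBb u
  have hval : ∀ i, ∀ t ∈ J i, ‖L i (1 / 2 + t * Complex.I)‖ ^ 4 ≤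
      (8 * C2 ^ 4 * ((N : ℝ) * P) ^ (4 * e1)) * (1 + (∫ τ : ℝ, k τ * f i (t + τ)) ^ 4) := by
    intro i t ht
    have h1 := hH N T D hSys (F i) (lam i) P (hF i).1 (hn1 i) (hF i).2 hP1
      (L i) (hLL i) t (hJP i t ht) X (by
        refine le_trans ?_ hXge
        rw [hX0]
        gcongr)
    have h2 : ∫ τ : ℝ, ((1 + |τ|) ^ 4)⁻¹ * ‖SX (lam i) X (1 / 2 + ((t + τ : ℝ) : ℂ) * Complex.I)‖ =
        ∫ τ : ℝ, k τ * f i (t + τ) := by
      refine integral_congr_ae (Filter.Eventually.of_forall (fun τ => ?_))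
      show ((1 + |τ|) ^ 4)⁻¹ * _ = k τ * f i (t + τ)
      rw [hf, hkd]
      simp only
      rw [← sx_sd]
    rw [h2] at h1
    have h3 : 0 ≤ ∫ τ : ℝ, k τ * f i (t + τ) :=
      integral_nonneg (fun τ => mul_nonneg (hknn τ) (hf0 i _))
    obtain ⟨I, hI⟩ : ∃ I : ℝ, I = ∫ τ : ℝ, k τ * f i (t + τ) := ⟨_, rfl⟩
    rw [← hI] at h1 h3 ⊢
    have h5 := pow_le_pow_left₀ (norm_nonneg _) h1 4
    refine h5.trans ?_
    have h6 : (1 + I) ^ 4 ≤ 8 * (1 + I ^ 4) := by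
      nlinarith [sq_nonneg (I - 1), sq_nonneg (I ^ 2 - 1), sq_nonneg (I + 1), mul_nonneg h3 h3,
        mul_nonneg (mul_nonneg h3 h3) (sq_nonneg (I - 1))]
    have h7 : (((N : ℝ) * P) ^ e1) ^ 4 = ((N : ℝ) * P) ^ (4 * e1) := by
      rw [← Real.rpow_natCast, ← Real.rpow_mul (by positivity)]
      congr 1
      push_cast
      ring
    calc (C2 * ((N : ℝ) * P) ^ e1 * (1 + I)) ^ 4 = C2 ^ 4 * (((N : ℝ) * P) ^ e1) ^ 4 * (1 + I) ^ 4 := by
          ring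
      _ ≤ C2 ^ 4 * (((N : ℝ) * P) ^ e1) ^ 4 * (8 * (1 + I ^ 4)) := by gcongr
      _ = _ := by rw [h7]; ring
  -- the sum of the smoothed values
  have hsm : ∑ i, ∑ t ∈ J i, (∫ τ : ℝ, k τ * f i (t + τ)) ^ 4 ≤
      B * S2 * (C1 * ((N : ℝ) * δ⁻¹) ^ ((2 * m + 4) * e1) * (N : ℝ) ^ m * δ⁻¹ ^ (m ^ 2)) := by
    obtain ⟨Q, hQ⟩ : ∃ Q : ℝ, Q = C1 * ((N : ℝ) * δ⁻¹) ^ ((2 * m + 4) * e1) * (N : ℝ) ^ m *
      δ⁻¹ ^ (m ^ 2) := ⟨_, rfl⟩
    have hQ0 : 0 ≤ Q := by rw [hQ]; positivity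
    rw [← hQ] at hdyd ⊢
    have e5 : ENNReal.ofReal (∑ i, ∑ t ∈ J i, (∫ τ : ℝ, k τ * f i (t + τ)) ^ 4) ≤
        ENNReal.ofReal (B * S2 * Q) := by
      rw [ENNReal.ofReal_sum_of_nonneg (fun i _ => Finset.sum_nonneg (fun t _ =>
        Even.pow_nonneg (by decide) _))]
      calc ∑ i, ENNReal.ofReal (∑ t ∈ J i, (∫ τ : ℝ, k τ * f i (t + τ)) ^ 4) =
          ∑ i, ∑ t ∈ J i, ENNReal.ofReal ((∫ τ : ℝ, k τ * f i (t + τ)) ^ 4) := by
            refine Finset.sum_congr rfl (fun i _ => ?_)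
            rw [ENNReal.ofReal_sum_of_nonneg (fun t _ => Even.pow_nonneg (by decide) _)]
        _ ≤ ∑ i, ∑' j : ℤ, ENNReal.ofReal (B * ((1 + |(j : ℝ)|) ^ 2)⁻¹) *
            ∫⁻ u in Set.Icc (-δ⁻¹) δ⁻¹, ENNReal.ofReal (f i (u + 2 * j * δ⁻¹) ^ 4) :=
            Finset.sum_le_sum (fun i _ => hW δ⁻¹ (J i) (f i) hδi1 (hJ i)
              (fun t ht => (hJP i t ht).trans hPδ) (hfc i) (hf0 i) (hfi i))
        _ = ∑' j : ℤ, ∑ i, ENNReal.ofReal (B * ((1 + |(j : ℝ)|) ^ 2)⁻¹) *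
            ∫⁻ u in Set.Icc (-δ⁻¹) δ⁻¹, ENNReal.ofReal (f i (u + 2 * j * δ⁻¹) ^ 4) :=
            (Summable.tsum_finsetSum (fun i _ => ENNReal.summable)).symm
        _ ≤ ∑' j : ℤ, ENNReal.ofReal (B * ((1 + |(j : ℝ)|) ^ 2)⁻¹) * ENNReal.ofReal Q := by
            refine ENNReal.tsum_le_tsum (fun j => ?_)
            rw [← Finset.mul_sum]
            exact mul_le_mul_right (hdyd (2 * j * δ⁻¹)) _
        _ = ENNReal.ofReal (B * S2 * Q) := by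
            rw [ENNReal.tsum_mul_right, ENNReal.ofReal_mul (by positivity)]
            congr 1
            rw [hS2, ← tsum_mul_left, ENNReal.ofReal_tsum_of_nonneg (fun j => by positivity)
              (summable_int_sq.mul_left B)]
    exact (ENNReal.ofReal_le_ofReal_iff (by positivity)).1 e5
  -- the number of the points
  have hct : ∑ i, ∑ _t ∈ J i, (1 : ℝ) ≤
      4 * (C3 * ((N : ℝ) * δ⁻¹) ^ e1 * (N : ℝ) ^ m * δ⁻¹ ^ (m ^ 2)) := by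
    calc ∑ i, ∑ _t ∈ J i, (1 : ℝ) = ∑ i, ((J i).card : ℝ) := by simp
      _ ≤ ∑ _i : ι, 4 * P := Finset.sum_le_sum (fun i _ => wsp_card (hJ i) hP1 (hJP i))
      _ = 4 * ((Fintype.card ι : ℝ) * P) := by
          rw [Finset.sum_const, nsmul_eq_mul, Finset.card_univ]
          ring
      _ ≤ 4 * ((Fintype.card ι : ℝ) * δ⁻¹) := by gcongr
      _ ≤ _ := by gcongr
  -- powers of the scale
  have hpow : ∀ a : ℝ, 0 ≤ a → ((N : ℝ) * δ⁻¹) ^ a = c'⁻¹ ^ a * ((N : ℝ) * P) ^ a := by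
    intro a _
    rw [hδi, show (N : ℝ) * (c'⁻¹ * P) = c'⁻¹ * (N * P) by ring,
      Real.mul_rpow (by positivity) (by positivity)]
  have hpow2 : δ⁻¹ ^ (m ^ 2) = c'⁻¹ ^ (m ^ 2) * P ^ (m ^ 2) := by
    rw [hδi, mul_pow]
  have hmm : (0 : ℝ) ≤ m := by positivity
  calc ∑ i, ∑ t ∈ J i, ‖L i (1 / 2 + t * Complex.I)‖ ^ 4 ≤
      ∑ i, ∑ t ∈ J i, (8 * C2 ^ 4 * ((N : ℝ) * P) ^ (4 * e1)) *
        (1 + (∫ τ : ℝ, k τ * f i (t + τ)) ^ 4) :=
        Finset.sum_le_sum (fun i _ => Finset.sum_le_sum (fun t ht => hval i t ht))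
    _ = (8 * C2 ^ 4 * ((N : ℝ) * P) ^ (4 * e1)) * (∑ i, ∑ _t ∈ J i, (1 : ℝ) +
        ∑ i, ∑ t ∈ J i, (∫ τ : ℝ, k τ * f i (t + τ)) ^ 4) := by
        rw [← Finset.sum_add_distrib, Finset.mul_sum]
        refine Finset.sum_congr rfl (fun i _ => ?_)
        rw [← Finset.sum_add_distrib, Finset.mul_sum]
    _ ≤ (8 * C2 ^ 4 * ((N : ℝ) * P) ^ (4 * e1)) *
        (4 * (C3 * ((N : ℝ) * δ⁻¹) ^ e1 * (N : ℝ) ^ m * δ⁻¹ ^ (m ^ 2)) +
        B * S2 * (C1 * ((N : ℝ) * δ⁻¹) ^ ((2 * m + 4) * e1) * (N : ℝ) ^ m * δ⁻¹ ^ (m ^ 2))) := by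
        gcongr
    _ = 8 * C2 ^ 4 * ((c'⁻¹ ^ e1 * c'⁻¹ ^ (m ^ 2)) * (4 * C3) *
          (((N : ℝ) * P) ^ (4 * e1) * ((N : ℝ) * P) ^ e1) +
        (c'⁻¹ ^ ((2 * m + 4) * e1) * c'⁻¹ ^ (m ^ 2)) * (B * S2 * C1) *
          (((N : ℝ) * P) ^ (4 * e1) * ((N : ℝ) * P) ^ ((2 * m + 4) * e1))) *
            ((N : ℝ) ^ m * P ^ (m ^ 2)) := by
        rw [hpow _ he1.le, hpow _ (by positivity), hpow2]
        ring
    _ ≤ 8 * C2 ^ 4 * ((c'⁻¹ ^ e1 * c'⁻¹ ^ (m ^ 2)) * (4 * C3) * ((N : ℝ) * P) ^ ε +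
        (c'⁻¹ ^ ((2 * m + 4) * e1) * c'⁻¹ ^ (m ^ 2)) * (B * S2 * C1) * ((N : ℝ) * P) ^ ε) *
            ((N : ℝ) ^ m * P ^ (m ^ 2)) := by
        have e6 : ((N : ℝ) * P) ^ (4 * e1) * ((N : ℝ) * P) ^ e1 ≤ ((N : ℝ) * P) ^ ε := by
          rw [← Real.rpow_add (by positivity)]
          refine Real.rpow_le_rpow_of_exponent_le hNP ?_
          rw [← he1ε]
          nlinarith
        have e7 : ((N : ℝ) * P) ^ (4 * e1) * ((N : ℝ) * P) ^ ((2 * m + 4) * e1) ≤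
            ((N : ℝ) * P) ^ ε := by
          rw [← Real.rpow_add (by positivity)]
          refine Real.rpow_le_rpow_of_exponent_le hNP ?_
          rw [← he1ε]
          nlinarith
        gcongr
    _ = K * ((N : ℝ) * P) ^ ε * (N : ℝ) ^ m * P ^ (m ^ 2) := by
        rw [hK]
        ring
    _ ≤ (K + 1) * ((N : ℝ) * P) ^ ε * (N : ℝ) ^ m * P ^ (m ^ 2) := by
        gcongr
        linarith

end Pool.Agent.H27.L1.H34.GZZ
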