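import Pool.Agent.H27.L1.H69.GB.HYA
import Pool.Agent.H27.L1.H34.GZZ.GBZ
import Pool.Agent.H27.L1.H34.GZZ.ZEU

/-!
Row HYZ: one value on the critical line against short sums, no weight and no condition at infinity
(after `Pool/Agent/H69/GH/HYB.lean` of helper69).
-/

set_option autoImplicit false

namespace Pool.Agent.H27.L1.H34.GZZ

open MeasureTheory Pool.Agent.H27.L1.H34.GM Pool.Agent.H27.L1.H34.GZ Pool.Agent.H27.L1.H34.GU Pool.Agent.H27.L1.H34.GA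
open Pool.Agent.H27.L1.H23.GB Pool.Agent.H27.L1.H69.GA Pool.Agent.H27.L1.H69.GB Pool.Agent.H27.L1.H68.GHY Pool.Agent.H27.L1.H34.GHY

/-- shift of the kernel -/
theorem hyz_shift {g : ℝ → ℝ} {t t' : ℝ} (hg0 : ∀ u, 0 ≤ g u) (ht : |t' - t| ≤ 1)
    (hi : ∀ t : ℝ, Integrable (fun τ : ℝ => ((1 + |τ|) ^ 4)⁻¹ * g (t + τ))) :
    ∫ τ : ℝ, ((1 + |τ|) ^ 4)⁻¹ * g (t' + τ) ≤ 16 * ∫ τ : ℝ, ((1 + |τ|) ^ 4)⁻¹ * g (t + τ) := by
  have h1 : ∫ τ : ℝ, ((1 + |τ|) ^ 4)⁻¹ * g (t' + τ) =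
      ∫ τ : ℝ, ((1 + |τ + (t - t')|) ^ 4)⁻¹ * g (t + τ) := by
    rw [← integral_add_right_eq_self (fun τ : ℝ => ((1 + |τ|) ^ 4)⁻¹ * g (t' + τ)) (t - t')]
    refine integral_congr_ae (Filter.Eventually.of_forall fun τ => ?_)
    show ((1 + |τ + (t - t')|) ^ 4)⁻¹ * g (t' + (τ + (t - t'))) = _
    rw [show t' + (τ + (t - t')) = t + τ by ring]
  have h2 : Integrable (fun τ : ℝ => ((1 + |τ + (t - t')|) ^ 4)⁻¹ * g (t + τ)) := by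
    have h3 := (hi t').comp_add_right (t - t')
    refine h3.congr (Filter.Eventually.of_forall fun τ => ?_)
    show ((1 + |τ + (t - t')|) ^ 4)⁻¹ * g (t' + (τ + (t - t'))) = _
    rw [show t' + (τ + (t - t')) = t + τ by ring]
  rw [h1, ← integral_const_mul]
  refine integral_mono h2 ((hi t).const_mul 16) fun τ => ?_
  show ((1 + |τ + (t - t')|) ^ 4)⁻¹ * g (t + τ) ≤ 16 * (((1 + |τ|) ^ 4)⁻¹ * g (t + τ))
  rw [← mul_assoc]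
  refine mul_le_mul_of_nonneg_right ?_ (hg0 _)
  have h4 : 1 + |τ| ≤ 2 * (1 + |τ + (t - t')|) := by
    have h5 : |τ| ≤ |τ + (t - t')| + |t' - t| := by
      have h6 := abs_add_le (τ + (t - t')) (t' - t)
      have e : τ + (t - t') + (t' - t) = τ := by ring
      rwa [e] at h6
    have h7 : 0 ≤ |τ + (t - t')| := abs_nonneg _
    linarith
  have h5 : (1 + |τ|) ^ 4 ≤ 16 * (1 + |τ + (t - t')|) ^ 4 := by
    calc (1 + |τ|) ^ 4 ≤ (2 * (1 + |τ + (t - t')|)) ^ 4 := pow_le_pow_left₀ (by positivity) h4 4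
      _ = _ := by ring
  have h6 : 0 < (1 + |τ|) ^ 4 := by positivity
  have h7 : 0 < (1 + |τ + (t - t')|) ^ 4 := by positivity
  rw [inv_le_iff_one_le_mul₀ h7]
  calc (1 : ℝ) = ((1 + |τ|) ^ 4)⁻¹ * (1 + |τ|) ^ 4 := by rw [inv_mul_cancel₀ h6.ne']
    _ ≤ ((1 + |τ|) ^ 4)⁻¹ * (16 * (1 + |τ + (t - t')|) ^ 4) :=
        mul_le_mul_of_nonneg_left h5 (by positivity)
    _ = _ := by ring

/-- the last step at one point of the disc -/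
theorem hyz_fin {x Pm Q Z CA CZ cz Cz E I D0 Rn : ℝ} (hx : 0 ≤ x) (hcz : 0 < cz)
    (hRn : 0 < Rn) (hQ : 1 ≤ Q) (hCZ : 0 ≤ CZ)
    (hE : 0 ≤ CA * E) (hI : 0 ≤ I) (hCz : 0 ≤ Cz) (hZ : cz * Rn⁻¹ * (Pm * Q) ≤ Z)
    (hD : D0 ≤ Rn⁻¹) (hA : x * Z ≤ CA * E * (CZ * D0 + Cz * Rn⁻¹ * Q * I)) :
    x * Pm ≤ CA * (CZ + Cz) * cz⁻¹ * E * (1 + I) := by
  have hQ0 : 0 < Q := by linarith
  have h1 : x * (cz * Rn⁻¹ * (Pm * Q)) ≤ CA * E * (CZ * Rn⁻¹ + Cz * Rn⁻¹ * Q * I) := by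
    calc x * (cz * Rn⁻¹ * (Pm * Q)) ≤ x * Z := mul_le_mul_of_nonneg_left hZ hx
      _ ≤ _ := hA
      _ ≤ _ := mul_le_mul_of_nonneg_left
          (add_le_add (mul_le_mul_of_nonneg_left hD hCZ) le_rfl) hE
  have h2 : x * Pm = x * (cz * Rn⁻¹ * (Pm * Q)) * (cz⁻¹ * Rn * Q⁻¹) := by
    field_simp
  rw [h2]
  calc x * (cz * Rn⁻¹ * (Pm * Q)) * (cz⁻¹ * Rn * Q⁻¹) ≤
        CA * E * (CZ * Rn⁻¹ + Cz * Rn⁻¹ * Q * I) * (cz⁻¹ * Rn * Q⁻¹) :=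
        mul_le_mul_of_nonneg_right h1 (by positivity)
    _ = CA * E * cz⁻¹ * (CZ * Q⁻¹ + Cz * I) := by
        field_simp
    _ ≤ CA * E * cz⁻¹ * ((CZ + Cz) * (1 + I)) := by
        refine mul_le_mul_of_nonneg_left ?_ (by positivity)
        have h3 : Q⁻¹ ≤ 1 := inv_le_one_of_one_le₀ hQ
        have h4 : CZ * Q⁻¹ ≤ CZ * 1 := mul_le_mul_of_nonneg_left h3 hCZ
        nlinarith [mul_nonneg hCZ hI]
    _ = _ := by ring

theorem pf_HYZ (hPRF : T_PRF) (hFR : T_FR1) (hAFZ : T_AFZ) (hZPE : T_ZPE)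
    (hLMB : Pool.Agent.H27.L1.H23.GB.T_LMB) (hZPB : T_ZPB) (hFEC : T_FEC)
    (hMLZ : T_MLZ) (hENA : T_ENA) (hCNR : T_CNR) (hCFA : T_CFA)
    (hCFB : Pool.Agent.H27.L1.H34.GA.T_CFB) (hSMA : Pool.Agent.H27.L1.H34.GA.T_SMA)
    (hPHB : T_PHB) (hBIA : T_BIA) (hTAY : T_TAY) (hCIZ : T_CIZ) (hMED : T_MED) : T_HYZ := by
  obtain ⟨χ, hχ⟩ := hPRF
  intro m hm ε hε
  have hmR : (1 : ℝ) ≤ m := by exact_mod_cast hm
  -- the exponent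
  obtain ⟨εm, hεm0, hεm1, hεmε⟩ : ∃ εm : ℝ, 0 < εm ∧ εm ≤ 1 ∧ εm ≤ ε :=
    ⟨min ε 1, lt_min hε one_pos, min_le_right _ _, min_le_left _ _⟩
  obtain ⟨e, he0, he1, hem⟩ : ∃ e : ℝ, 0 < e ∧ e ≤ 1 ∧ (m + 3) * e = εm := by
    refine ⟨εm / (m + 3), by positivity, ?_, by field_simp⟩
    rw [div_le_one (by positivity)]
    linarith
  have heε : e ≤ ε := by nlinarith
  obtain ⟨B, hB, hLam⟩ := hLMB m hm
  obtain ⟨r0, hr0, hZ0⟩ := hZPB m χ 0 hm hχ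
  obtain ⟨CN, hCN, hNR⟩ := hCNR m hm
  obtain ⟨cT, cT2, CT, hcT, hcT2, hCT, hT⟩ := hTAY m χ hm hχ CN hCN
  obtain ⟨n0, cz, Cz, hcz, hCz, hZEU⟩ := pf_ZEU (max CT r0) cT2 hcT2
  obtain ⟨K, CA, hCA, hA⟩ := hAFZ m n0 n0 hm r0 B e hr0 hB he0 he1
  obtain ⟨CZ, hCZ, hZ⟩ := hZPB m χ K hm hχ
  obtain ⟨CP, cP, AP, hCP, hcP, hP⟩ := hPHB χ hχ m hm 1 0 one_pos
  obtain ⟨CC, hCC, hC⟩ := hCIZ n0 e he0
  have hCN0 : 0 < CN := by linarith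
  have hCZ0 : 0 < CZ := by linarith
  obtain ⟨c, hc, hc2, hcT1⟩ : ∃ c : ℝ, 0 < c ∧ c ≤ 1 / 32 ∧ c * 4 ≤ cT := by
    refine ⟨min (1 / 32) (cT / 4), lt_min (by norm_num) (by positivity), min_le_left _ _, ?_⟩
    have h1 : min (1 / 32) (cT / 4) ≤ cT / 4 := min_le_right _ _
    linarith
  obtain ⟨C1, hC1⟩ : ∃ C1 : ℝ, C1 = CA * ((c⁻¹ ^ m) ^ (1 / 2 : ℝ) * c ^ (-e)) := ⟨_, rfl⟩
  obtain ⟨C2, hC2⟩ : ∃ C2 : ℝ, C2 = CC * (CA * (CZ + Cz) * cz⁻¹ * c ^ (-εm) * 16) := ⟨_, rfl⟩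
  have hC1p : 0 < C1 := by
    rw [hC1]
    positivity
  have hC2p : 0 < C2 := by
    rw [hC2]
    positivity
  refine ⟨C1 + C2, by positivity, ?_⟩
  intro N _ T D hS F lam P hF hn hLip hP1 L hLL t ht X hX
  have hNZ : NZ F := spx_nz hS (by rw [hn]; exact one_ne_zero)
  have hP0 : 0 < P := by linarith
  have hN1 : (1 : ℝ) ≤ N := by
    have := hS.two_le
    exact_mod_cast (by omega : 1 ≤ N)
  have hN0 : (0 : ℝ) < N := by linarith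
  have hNP : 1 ≤ (N : ℝ) * P := by nlinarith
  obtain ⟨H, xv, hFr⟩ := hFR m N hm hS.two_le
  have hc1 : Cof m (c1 D F) 1 := by
    have h1 := hCFA m N T D hS F lam hF.toHecA
    rw [hn] at h1
    exact h1
  have hc2' : Cof m (c2 D H xv F) 1 := by
    have h1 := hCFB m N T D hS H xv hFr F lam hF.toHecA
    rw [hn] at h1
    exact h1
  have hlam := hLam N T D hS F lam hF.toHecA hNZ
  obtain ⟨δ, hδd⟩ : ∃ δ : ℝ, δ = c / P := ⟨_, rfl⟩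
  have hδ0 : 0 < δ := by
    rw [hδd]
    positivity
  have hδP : δ * P = c := by
    rw [hδd]
    field_simp
  have hδc : δ ≤ c := by
    rw [hδd]
    exact div_le_self hc.le hP1
  have hδ32 : δ ≤ 1 / 32 := hδc.trans hc2
  have hδ2 : δ ≤ 1 / 2 := hδ32.trans (by norm_num)
  obtain ⟨hΦ, hΦ0, hΦW, -⟩ := hP δ hδ0 hδ2
  have hbi := (hBIA m χ hm hχ)
  obtain ⟨Cb, hCb, hbi⟩ := hbi
  have hZ1 := hZ δ hδ0 hδ2 (c1 D F) hc1
  have hZ2 := hZ δ hδ0 hδ2 (c2 D H xv F) hc2'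
  have hZ3 := (hZ0 δ hδ0 hδ2 (c1 D F) hc1).2.2
  have hZl := (hZ0 δ hδ0 hδ2 (c1 D F) hc1).2.1
  have hZK : ∀ K : ℕ, ∃ C : ℝ, ∀ r : ℝ, 0 < r →
      ‖uu (Pool.Agent.H27.L1.H34.GA.cf (dD^[m] (bi m χ δ))) (c2 D H xv F) r‖ ≤ C * min 1 (r ^ K) := by
    intro K'
    obtain ⟨CK, hCK, hK⟩ := hZPB m χ K' hm hχ
    refine ⟨CK * δ⁻¹ ^ K', fun r hr => ?_⟩
    exact hya_min (by linarith) hr hδ0 (by linarith) ((hK δ hδ0 hδ2 _ hc2').1 r hr)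
  -- the zeta integral on the disc
  have hs0 : δ * (1 + P + ‖(1 / 2 + t * Complex.I : ℂ)‖) ≤ cT := by
    have h4 : ‖(1 / 2 + t * Complex.I : ℂ)‖ ≤ 1 / 2 + |t| := by
      refine (norm_add_le _ _).trans (le_of_eq ?_)
      rw [norm_mul, Complex.norm_I, mul_one, Complex.norm_real, Real.norm_eq_abs]
      norm_num
    have h6 : 1 + P + ‖(1 / 2 + t * Complex.I : ℂ)‖ ≤ 4 * P := by
      linarith
    calc δ * (1 + P + ‖(1 / 2 + t * Complex.I : ℂ)‖) ≤ δ * (4 * P) :=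
          mul_le_mul_of_nonneg_left h6 hδ0.le
      _ = (δ * P) * 4 := by ring
      _ = c * 4 := by rw [hδP]
      _ ≤ cT := hcT1
  obtain ⟨hZd, s1, hs1, hs1'⟩ := hT (c1 D F) P (1 / 2 + t * Complex.I) δ hc1.meas hc1.bd hP0.le
    (fun w hw => hNR N T D hS F lam hF.toHecA hn P hLip hP0.le w hw) hδ0 hs0
  obtain ⟨Φ, hΦd⟩ : ∃ Φ : Mat m → ℂ, Φ = dD^[m] (bi m χ δ) := ⟨_, rfl⟩
  rw [← hΦd] at hΦ hΦ0 hΦW hZ1 hZ2 hZK hZ3 hZl hs1'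
  simp only [← hΦd] at hZd
  have hAd : Adm F (Pool.Agent.H27.L1.H34.GA.cf Φ) := Or.inr hΦ0
  have hWc := hSMA m N T D hS F lam hF hNZ Φ hΦ hAd
  obtain ⟨L', hL', hLW'⟩ := hENA m N T D hS F lam hF hNZ
  have hLe : L = L' := isl_uniq hLL hL'
  have hLW : ∀ s : ℂ, LmA m (uu Φ (c1 D F)) lam s = L s * MelA m (uu Φ (c1 D F)) s := by
    rw [hLe]
    exact hLW' _ hWc
  have hne : ∃ s : ℂ, L s ≠ 0 := isl_ne hLL (lam_one hS hF.toHecA hNZ)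
  have hFE := hFEC m N T D hS H xv hFr F lam hF hNZ Φ hΦ hAd
  obtain ⟨-, hcψ, hMel⟩ := hMLZ m hm (c1 D F) 1 hc1 Φ hΦ.toTg
  have hcψ' : ContinuousOn (uu (Pool.Agent.H27.L1.H34.GA.cf Φ) (c2 D H xv F)) (Set.Ioi 0) :=
    (hΦW _ hc2').2.diff.continuousOn
  have hMd : Differentiable ℂ (MelA m (uu Φ (c1 D F))) := hMED m r0 _ hm hr0 hcψ hZ3
  -- the zeros
  have hδi32 : (32 : ℝ) ≤ δ⁻¹ := by
    rw [le_inv_comm₀ (by norm_num) hδ0]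
    linarith
  obtain ⟨n, z, hn0, hzz⟩ := hZEU (MelA m (uu Φ (c1 D F))) t δ⁻¹ hMd hδi32
    (fun s hs => by
      rw [hMel]
      exact (hZd s hs).trans (le_max_left _ _))
    (fun u => by
      rw [hMel]
      exact (hZl u).trans (le_max_right _ _))
    ⟨s1, hs1, by
      rw [hMel]
      exact hs1'⟩
  -- the length
  have hX' : CA * ((N : ℝ) * δ⁻¹ ^ m) ^ (1 / 2 : ℝ) * ((N : ℝ) / δ) ^ e ≤ X := by
    refine le_trans ?_ hX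
    rw [hδd, hya_pow hN0 hP0 hc, hya_pow2 m hN0 hP0 hc]
    have h7 : CA * ((c⁻¹ ^ m) ^ (1 / 2 : ℝ) * ((N : ℝ) * P ^ m) ^ (1 / 2 : ℝ)) *
        (c ^ (-e) * ((N : ℝ) * P) ^ e) =
        C1 * ((N : ℝ) * P ^ m) ^ (1 / 2 : ℝ) * ((N : ℝ) * P) ^ e := by
      rw [hC1]
      ring
    rw [h7]
    have h8 : ((N : ℝ) * P) ^ e ≤ ((N : ℝ) * P) ^ ε := Real.rpow_le_rpow_of_exponent_le hNP heε
    have h9 : C1 ≤ C1 + C2 := by linarith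
    gcongr
  -- the integral
  obtain ⟨g, hg⟩ : ∃ g : ℝ → ℝ, g = fun u : ℝ =>
    ‖SX lam X (1 / 2 + (u : ℂ) * Complex.I)‖ := ⟨_, rfl⟩
  have hg0 : ∀ u, 0 ≤ g u := fun u => by
    rw [hg]
    exact norm_nonneg _
  have hgi : ∀ t : ℝ, Integrable (fun τ : ℝ => ((1 + |τ|) ^ 4)⁻¹ * g (t + τ)) := by
    have hg' : g = fun u => ‖SD lam X u‖ := by
      rw [hg]
      funext u
      rw [← sx_sd]
    obtain ⟨Bb, hBb⟩ := sd_bdd lam X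
    have hkc : Continuous (fun τ : ℝ => ((1 + |τ|) ^ 4)⁻¹) := by
      refine Continuous.inv₀ (by fun_prop) (fun τ => ?_)
      positivity
    intro t
    rw [hg']
    refine krn_int4 (k := fun τ : ℝ => ((1 + |τ|) ^ 4)⁻¹) hkc (fun τ => by positivity)
      (C := 1) (fun τ => by rw [one_mul]) (fun u => ‖SD lam X u‖) (sd_cont lam X).norm Bb
      (fun u => ?_) t
    rw [abs_of_nonneg (norm_nonneg _)]
    exact hBb u
  obtain ⟨I, hI⟩ : ∃ I : ℝ, I = ∫ τ : ℝ, ((1 + |τ|) ^ 4)⁻¹ *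
    ‖SX lam X (1 / 2 + ((t + τ : ℝ) : ℂ) * Complex.I)‖ := ⟨_, rfl⟩
  have hI0 : 0 ≤ I := by
    rw [hI]
    exact integral_nonneg fun τ => mul_nonneg (by positivity) (norm_nonneg _)
  rw [← hI]
  -- one point of the disc
  have hpt : ∀ s : ℂ, ‖s - (1 / 2 + t * Complex.I)‖ ≤ e → ‖L s‖ * ∏ i, min 1 ‖s - z i‖ ≤
      CA * (CZ + Cz) * cz⁻¹ * (c ^ (-εm) * ((N : ℝ) * P) ^ ε) * (1 + 16 * I) := by
    intro s hs
    obtain ⟨hlo, hup⟩ := hzz s (hs.trans he1)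
    have him : |s.im - t| ≤ 1 := by
      have h2 := Complex.abs_im_le_norm (s - (1 / 2 + t * Complex.I))
      have e' : (s - (1 / 2 + t * Complex.I)).im = s.im - t := by
        simp
      rw [e'] at h2
      exact h2.trans (hs.trans he1)
    have hre : |s.re - 1 / 2| ≤ e := by
      have h2 := Complex.abs_re_le_norm (s - (1 / 2 + t * Complex.I))
      have e' : (s - (1 / 2 + t * Complex.I)).re = s.re - 1 / 2 := by
        simp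
      rw [e'] at h2
      exact h2.trans hs
    have hse : (((1 / 2 + (s.re - 1 / 2) : ℝ) : ℂ) + (s.im : ℂ) * Complex.I) = s := by
      rw [show (1 / 2 + (s.re - 1 / 2) : ℝ) = s.re by ring]
      exact Complex.re_add_im s
    obtain ⟨Q, hQ⟩ : ∃ Q : ℝ, Q = ∏ i, max 1 ‖s - z i‖ := ⟨_, rfl⟩
    have hQ1 : 1 ≤ Q := by
      rw [hQ]
      calc (1 : ℝ) = ∏ _i : Fin n, (1 : ℝ) := Finset.prod_const_one.symm
        _ ≤ _ := Finset.prod_le_prod (fun _ _ => zero_le_one) fun i _ => le_max_left _ _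
    rw [← hQ] at hlo hup
    have hM1 : ∀ u : ℝ, ‖MelA m (uu Φ (c1 D F)) (1 / 2 + u * Complex.I)‖ ≤
        (Cz * (δ⁻¹ ^ n)⁻¹ * Q) * (1 + |u - s.im|) ^ n0 := by
      intro u
      refine (hup u).trans (mul_le_mul_of_nonneg_left ?_ (by positivity))
      exact pow_le_pow_right₀ (by linarith [abs_nonneg (u - s.im)]) hn0
    have hM2 : ∀ u : ℝ, ‖MelA m (uu (Pool.Agent.H27.L1.H34.GA.cf Φ) (c2 D H xv F))
        (1 / 2 + u * Complex.I)‖ ≤ (Cz * (δ⁻¹ ^ n)⁻¹ * Q) * (1 + |u - s.im|) ^ n0 := by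
      intro u
      rw [hZPE m N B r0 lam (uu Φ (c1 D F)) (uu (Pool.Agent.H27.L1.H34.GA.cf Φ) (c2 D H xv F)) L hm hN1
        hr0 hcψ hcψ' hZ3 hZK hlam hFE hLL hLW hne u]
      exact hM1 u
    have hfin := hA N δ CZ (Cz * (δ⁻¹ ^ n)⁻¹ * Q) lam (uu Φ (c1 D F))
      (uu (Pool.Agent.H27.L1.H34.GA.cf Φ) (c2 D H xv F)) hN1 hδ0 hδ2 hCZ0.le (by positivity) hcψ hcψ'
      hZ3 hZ2.1 hlam hFE s.im (s.re - 1 / 2) hre hM1 hM2 X hX'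
    rw [hse, hLW, norm_mul, hem] at hfin
    have hsh : ∫ τ : ℝ, ((1 + |τ|) ^ 4)⁻¹ *
        ‖SX lam X (1 / 2 + ((s.im + τ : ℝ) : ℂ) * Complex.I)‖ ≤ 16 * I := by
      have h1 := hyz_shift hg0 him hgi
      rw [hg] at h1
      rw [hI]
      exact h1
    have hI1 : 0 ≤ ∫ τ : ℝ, ((1 + |τ|) ^ 4)⁻¹ *
        ‖SX lam X (1 / 2 + ((s.im + τ : ℝ) : ℂ) * Complex.I)‖ :=
      integral_nonneg fun τ => mul_nonneg (by positivity) (norm_nonneg _)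
    have hD0 : (δ / N) ^ n0 ≤ (δ⁻¹ ^ n)⁻¹ := by
      rw [← inv_pow, inv_inv]
      calc (δ / N) ^ n0 ≤ δ ^ n0 := pow_le_pow_left₀ (by positivity) (div_le_self hδ0.le hN1) _
        _ ≤ δ ^ n := pow_le_pow_of_le_one hδ0.le (by linarith) hn0
    have h8 := hyz_fin (norm_nonneg (L s)) hcz (by positivity : 0 < δ⁻¹ ^ n)
      hQ1 hCZ0.le
      (by positivity : 0 ≤ CA * ((N : ℝ) / δ) ^ εm) hI1 hCz.le hlo hD0 hfin
    refine h8.trans ?_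
    have h9 : ((N : ℝ) / δ) ^ εm ≤ c ^ (-εm) * ((N : ℝ) * P) ^ ε := by
      rw [hδd, hya_pow hN0 hP0 hc]
      exact mul_le_mul_of_nonneg_left (Real.rpow_le_rpow_of_exponent_le hNP hεmε) (by positivity)
    gcongr
  have hfin := hC n L z (1 / 2 + t * Complex.I) _ hn0 hLL.1 hpt
  refine hfin.trans ?_
  have h10 : CC * (CA * (CZ + Cz) * cz⁻¹ * (c ^ (-εm) * ((N : ℝ) * P) ^ ε) * (1 + 16 * I)) ≤
      C2 * ((N : ℝ) * P) ^ ε * (1 + I) := by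
    rw [hC2]
    have h11 : 1 + 16 * I ≤ 16 * (1 + I) := by linarith
    calc CC * (CA * (CZ + Cz) * cz⁻¹ * (c ^ (-εm) * ((N : ℝ) * P) ^ ε) * (1 + 16 * I)) ≤
          CC * (CA * (CZ + Cz) * cz⁻¹ * (c ^ (-εm) * ((N : ℝ) * P) ^ ε) * (16 * (1 + I))) := by
          gcongr
      _ = _ := by ring
  refine h10.trans ?_
  refine mul_le_mul_of_nonneg_right (mul_le_mul_of_nonneg_right ?_ ?_) ?_
  · linarith
  · positivity
  · linarith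

end Pool.Agent.H27.L1.H34.GZZ
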